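import Mathlib

/-!
# The namespaces of the project
-/

namespace Pool.Agent.H906R3.YM
end Pool.Agent.H906R3.YM

namespace Pool.Agent.W793.YM
end Pool.Agent.W793.YM

namespace Pool.Agent.TH618.YM
end Pool.Agent.TH618.YM

namespace Pool.Agent.N984.TW
end Pool.Agent.N984.TW

namespace Pool.Agent.N988.MK
end Pool.Agent.N988.MK

namespace Pool.Agent.N989.MK
end Pool.Agent.N989.MK

namespace Pool.Agent.N991.MK
end Pool.Agent.N991.MK
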